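import Pool.Agent.Helper72.MK.Goals

/-!
# Packet MK-QVM: the quarter function as a function of `t`
-/

open MeasureTheory Set Filter Topology
open scoped ENNReal Quaternion
open Pool.Agent.Helper47.AQ
open Pool.Agent.Helper72.MK

noncomputable section

namespace Pool.Agent.Helper41.MK

theorem ip_continuous (w : Fin 3 → ℝ) : Continuous (fun x : Fin 3 → ℝ => ip x w) := by
  unfold ip
  exact continuous_finsetSum _ fun i _ => (continuous_apply i).mul continuous_const

theorem ip_add (x w z : Fin 3 → ℝ) (a : ℝ) : ip x (w + a • z) = ip x w + a * ip x z := by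
  simp only [ip, Fin.sum_univ_three, Pi.add_apply, Pi.smul_apply, smul_eq_mul]; ring

theorem ip_neg (x w : Fin 3 → ℝ) : ip (-x) w = -ip x w := by
  simp only [ip, Fin.sum_univ_three, Pi.neg_apply]; ring

theorem ip_smul (x w : Fin 3 → ℝ) (c : ℝ) : ip (c • x) w = c * ip x w := by
  simp only [ip, Fin.sum_univ_three, Pi.smul_apply, smul_eq_mul]; ring

theorem ip_self_eq (w : Fin 3 → ℝ) (h : ip w w = 0) : w = 0 := by
  simp only [ip, Fin.sum_univ_three] at h
  have h0 : w 0 = 0 := by nlinarith [mul_self_nonneg (w 0), mul_self_nonneg (w 1), mul_self_nonneg (w 2)]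
  have h1 : w 1 = 0 := by nlinarith [mul_self_nonneg (w 0), mul_self_nonneg (w 1), mul_self_nonneg (w 2)]
  have h2 : w 2 = 0 := by nlinarith [mul_self_nonneg (w 0), mul_self_nonneg (w 1), mul_self_nonneg (w 2)]
  funext i
  fin_cases i
  · exact h0
  · exact h1
  · exact h2

/-- The linear functional of `w`. -/
def ipl (w : Fin 3 → ℝ) : (Fin 3 → ℝ) →ₗ[ℝ] ℝ where
  toFun x := ip x w
  map_add' x y := by simp only [ip, Fin.sum_univ_three, Pi.add_apply]; ring
  map_smul' c x := by
    simp only [ip, Fin.sum_univ_three, Pi.smul_apply, smul_eq_mul, RingHom.id_apply]; ring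

theorem null_plane (w : Fin 3 → ℝ) (hw : w ≠ 0) :
    volume {x : Fin 3 → ℝ | ip x w = 0} = 0 := by
  have h1 : LinearMap.ker (ipl w) ≠ ⊤ := by
    intro h
    have h2 : w ∈ LinearMap.ker (ipl w) := by rw [h]; exact Submodule.mem_top
    rw [LinearMap.mem_ker] at h2
    exact hw (ip_self_eq w h2)
  have h3 := Measure.addHaar_submodule (volume : Measure (Fin 3 → ℝ)) (LinearMap.ker (ipl w)) h1
  have h4 : ((LinearMap.ker (ipl w) : Submodule ℝ (Fin 3 → ℝ)) : Set (Fin 3 → ℝ)) =
      {x : Fin 3 → ℝ | ip x w = 0} := by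
    ext x
    simp only [SetLike.mem_coe, LinearMap.mem_ker, mem_ofPred_eq]
    rfl
  rwa [h4] at h3

theorem comb_ne {u v : Fin 3 → ℝ} (h : LinearIndependent ℝ ![u, v]) (t : ℝ) :
    u + t • v ≠ 0 := by
  intro h0
  have h1 := (LinearIndependent.pair_iff.1 h) 1 t (by rw [one_smul]; exact h0)
  exact one_ne_zero h1.1

theorem snd_ne {u v : Fin 3 → ℝ} (h : LinearIndependent ℝ ![u, v]) : v ≠ 0 := by
  intro h0
  have h1 := (LinearIndependent.pair_iff.1 h) 0 1 (by rw [h0]; simp)
  exact one_ne_zero h1.2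

theorem null_phi {u v : Fin 3 → ℝ} (h : LinearIndependent ℝ ![u, v]) (t : ℝ) :
    volume {x : Fin 3 → ℝ | ip x u - t * |ip x v| = 0} = 0 := by
  refine measure_mono_null (t := {x : Fin 3 → ℝ | ip x (u + (-t) • v) = 0} ∪
    {x : Fin 3 → ℝ | ip x (u + t • v) = 0}) ?_
    (measure_union_null (null_plane _ (comb_ne h _)) (null_plane _ (comb_ne h _)))
  intro x hx
  have hx' : ip x u - t * |ip x v| = 0 := hx
  rcases abs_choice (ip x v) with h1 | h1
  · left
    show ip x (u + (-t) • v) = 0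
    rw [ip_add]
    rw [h1] at hx'
    linarith
  · right
    show ip x (u + t • v) = 0
    rw [ip_add]
    rw [h1] at hx'
    linarith

/-- A vector with given inner products. -/
theorem exists_ip {u v : Fin 3 → ℝ} (h : LinearIndependent ℝ ![u, v]) (a b : ℝ) :
    ∃ x : Fin 3 → ℝ, ip x u = a ∧ ip x v = b := by
  set uu := ip u u with huu
  set uv := ip u v with huv
  set vv := ip v v with hvv
  have hcomm : ip v u = uv := by
    rw [huv]; simp only [ip, Fin.sum_univ_three]; ring
  have hdet : uu * vv - uv * uv ≠ 0 := by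
    intro h0
    have h1 : ip (vv • u + (-uv) • v) (vv • u + (-uv) • v) = vv * (uu * vv - uv * uv) := by
      rw [huu, huv, hvv]
      simp only [ip, Fin.sum_univ_three, Pi.add_apply, Pi.smul_apply, smul_eq_mul]; ring
    rw [h0, mul_zero] at h1
    have h2 := ip_self_eq _ h1
    have h3 := (LinearIndependent.pair_iff.1 h) _ _ h2
    exact snd_ne h (ip_self_eq v (by rw [← hvv]; exact h3.1))
  refine ⟨((a * vv - b * uv) / (uu * vv - uv * uv)) • u +
    ((b * uu - a * uv) / (uu * vv - uv * uv)) • v, ?_, ?_⟩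
  · have h1 : ip (((a * vv - b * uv) / (uu * vv - uv * uv)) • u +
        ((b * uu - a * uv) / (uu * vv - uv * uv)) • v) u =
        (a * vv - b * uv) / (uu * vv - uv * uv) * uu +
        (b * uu - a * uv) / (uu * vv - uv * uv) * uv := by
      rw [← hcomm]
      simp only [huu, ip, Fin.sum_univ_three, Pi.add_apply, Pi.smul_apply, smul_eq_mul]; ring
    rw [h1, div_mul_eq_mul_div, div_mul_eq_mul_div, ← add_div, div_eq_iff hdet]
    ring
  · have h1 : ip (((a * vv - b * uv) / (uu * vv - uv * uv)) • u +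
        ((b * uu - a * uv) / (uu * vv - uv * uv)) • v) v =
        (a * vv - b * uv) / (uu * vv - uv * uv) * uv +
        (b * uu - a * uv) / (uu * vv - uv * uv) * vv := by
      simp only [huu, huv, hvv, ip, Fin.sum_univ_three, Pi.add_apply, Pi.smul_apply, smul_eq_mul]; ring
    rw [h1, div_mul_eq_mul_div, div_mul_eq_mul_div, ← add_div, div_eq_iff hdet]
    ring

theorem dpol_meas {K : Set (Fin 3 → ℝ)} (h : IsBody K) : MeasurableSet (dpol K) := by
  rw [h.dpol_eq]
  exact (isClosed_le h.wd_continuous continuous_const).measurableSet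

theorem dpol_neg {K : Set (Fin 3 → ℝ)} (h : IsBody K) : ∀ x ∈ dpol K, -x ∈ dpol K := by
  intro x hx
  rw [h.dpol_eq] at hx ⊢
  have hx' : wd K x ≤ 1 := hx
  show wd K (-x) ≤ 1
  unfold wd at hx' ⊢
  rw [neg_neg]
  linarith

theorem QV_eq (L : Set (Fin 3 → ℝ)) (u v : Fin 3 → ℝ) (t : ℝ) :
    QV L u v t = (volume (L ∩ {x | 0 < ip x u - t * |ip x v|})).toReal := by
  unfold QV
  congr 3
  ext x
  simp only [mem_ofPred_eq, sub_pos]

theorem QV_cont (hD : DCVStmt) {K : Set (Fin 3 → ℝ)} (hK : IsBody K) {u v : Fin 3 → ℝ}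
    (h : LinearIndependent ℝ ![u, v]) : Continuous (QV (dpol K) u v) := by
  rw [continuous_iff_continuousAt]
  intro t₀
  have h1 := hD ℝ (𝓝 t₀) 3 (dpol K) (fun t x => ip x u - t * |ip x v|)
    (fun x => ip x u - t₀ * |ip x v|) (dpol_meas hK) hK.dpol_ne_top
    (fun t => ((ip_continuous u).sub
      (continuous_const.mul (ip_continuous v).abs)).measurable)
    ((ip_continuous u).sub (continuous_const.mul (ip_continuous v).abs)).measurable
    (fun x _ => by
      exact Tendsto.sub tendsto_const_nhds (Tendsto.mul tendsto_id tendsto_const_nhds))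
    (measure_mono_null inter_subset_right (null_phi h t₀))
  have h2 : (fun t => (volume (dpol K ∩ {x | 0 < ip x u - t * |ip x v|})).toReal) =
      QV (dpol K) u v := by
    funext t
    rw [QV_eq]
  rw [h2, ← QV_eq] at h1
  exact h1

theorem QV_zero {K : Set (Fin 3 → ℝ)} (hK : IsBody K) {u v : Fin 3 → ℝ}
    (h : LinearIndependent ℝ ![u, v]) :
    QV (dpol K) u v 0 * 2 = (volume (dpol K)).toReal := by
  have hu : u ≠ 0 := by
    have := comb_ne h 0
    rwa [zero_smul, add_zero] at this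
  have hc := ip_continuous u
  have hpos : MeasurableSet {x : Fin 3 → ℝ | 0 < ip x u} :=
    (isOpen_lt continuous_const hc).measurableSet
  have hmeas := dpol_meas hK
  have e1 : QV (dpol K) u v 0 = (volume (dpol K ∩ {x | 0 < ip x u})).toReal := by
    unfold QV
    simp only [zero_mul]
  -- the complement
  have e2 : volume (dpol K \ {x | 0 < ip x u}) = volume (dpol K ∩ {x | ip x u < 0}) := by
    refine le_antisymm ?_ (measure_mono ?_)
    · calc volume (dpol K \ {x | 0 < ip x u}) ≤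
          volume ((dpol K ∩ {x | ip x u < 0}) ∪ {x : Fin 3 → ℝ | ip x u = 0}) := by
            refine measure_mono ?_
            rintro x ⟨hx1, hx2⟩
            have hx3 : ¬ (0 < ip x u) := hx2
            rcases lt_or_eq_of_le (not_lt.1 hx3) with h4 | h4
            · exact Or.inl ⟨hx1, h4⟩
            · exact Or.inr h4
        _ ≤ volume (dpol K ∩ {x | ip x u < 0}) + volume {x : Fin 3 → ℝ | ip x u = 0} :=
            measure_union_le _ _
        _ = volume (dpol K ∩ {x | ip x u < 0}) := by rw [null_plane u hu, add_zero]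
    · rintro x ⟨hx1, hx2⟩
      have hx3 : ip x u < 0 := hx2
      exact ⟨hx1, fun h5 => absurd (show 0 < ip x u from h5) (not_lt.2 hx3.le)⟩
  have e3 : volume (dpol K ∩ {x | ip x u < 0}) = volume (dpol K ∩ {x | 0 < ip x u}) := by
    have h1 : (dpol K ∩ {x | ip x u < 0}) = -(dpol K ∩ {x | 0 < ip x u}) := by
      ext x
      constructor
      · rintro ⟨hx1, hx2⟩
        refine ⟨dpol_neg hK x hx1, ?_⟩
        show 0 < ip (-x) u
        rw [ip_neg]
        have : ip x u < 0 := hx2
        linarith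
      · rintro ⟨hx1, hx2⟩
        have h3 := dpol_neg hK _ hx1
        rw [neg_neg] at h3
        refine ⟨h3, ?_⟩
        have h4 : 0 < ip (-x) u := hx2
        rw [ip_neg] at h4
        show ip x u < 0
        linarith
    rw [h1]
    exact Measure.measure_neg volume _
  have e4 := measure_inter_add_sdiff (μ := (volume : Measure (Fin 3 → ℝ))) (dpol K) hpos
  rw [e2, e3] at e4
  have hfin : volume (dpol K ∩ {x | 0 < ip x u}) ≠ ⊤ :=
    (lt_of_le_of_lt (measure_mono inter_subset_left) hK.dpol_ne_top.lt_top).ne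
  rw [e1, ← e4, ENNReal.toReal_add hfin hfin]
  ring

theorem QV_small (hD : DCVStmt) {K : Set (Fin 3 → ℝ)} (hK : IsBody K) {u v : Fin 3 → ℝ}
    (h : LinearIndependent ℝ ![u, v]) (c : ℝ) (hc : 0 < c) :
    ∃ t : ℝ, 0 < t ∧ QV (dpol K) u v t < c := by
  have h1 := hD ℝ (𝓝[>] 0) 3 (dpol K) (fun s x => s * ip x u - |ip x v|)
    (fun x => 0 * ip x u - |ip x v|) (dpol_meas hK) hK.dpol_ne_top
    (fun t => ((continuous_const.mul (ip_continuous u)).sub (ip_continuous v).abs).measurable)
    ((continuous_const.mul (ip_continuous u)).sub (ip_continuous v).abs).measurable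
    (fun x _ => by
      refine Tendsto.sub (Tendsto.mul ?_ tendsto_const_nhds) tendsto_const_nhds
      exact tendsto_id.mono_left nhdsWithin_le_nhds)
    (by
      refine measure_mono_null (t := {x : Fin 3 → ℝ | ip x v = 0}) ?_ (null_plane v (snd_ne h))
      rintro x ⟨_, hx⟩
      have hx' : 0 * ip x u - |ip x v| = 0 := hx
      have h3 : |ip x v| = 0 := by linarith
      exact abs_eq_zero.1 h3)
  have h2 : (volume (dpol K ∩ {x | 0 < 0 * ip x u - |ip x v|})).toReal = 0 := by
    have h3 : (dpol K ∩ {x | 0 < 0 * ip x u - |ip x v|}) = ∅ := by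
      rw [eq_empty_iff_forall_notMem]
      rintro x ⟨_, hx⟩
      have hx' : 0 < 0 * ip x u - |ip x v| := hx
      have := abs_nonneg (ip x v)
      linarith
    rw [h3, measure_empty]
    rfl
  rw [h2] at h1
  have h4 : ∀ᶠ s in 𝓝[>] (0 : ℝ),
      (volume (dpol K ∩ {x | 0 < s * ip x u - |ip x v|})).toReal < c :=
    h1.eventually (gt_mem_nhds hc)
  obtain ⟨s, hs1, hs2⟩ := (h4.and self_mem_nhdsWithin).exists
  have hs : 0 < s := hs2
  refine ⟨s⁻¹, inv_pos.2 hs, ?_⟩
  rw [QV_eq]
  have h5 : {x : Fin 3 → ℝ | 0 < ip x u - s⁻¹ * |ip x v|} =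
      {x : Fin 3 → ℝ | 0 < s * ip x u - |ip x v|} := by
    ext x
    have h6 : ip x u - s⁻¹ * |ip x v| = s⁻¹ * (s * ip x u - |ip x v|) := by
      rw [mul_sub, ← mul_assoc, inv_mul_cancel₀ hs.ne', one_mul]
    show 0 < ip x u - s⁻¹ * |ip x v| ↔ 0 < s * ip x u - |ip x v|
    rw [h6]
    exact mul_pos_iff_of_pos_left (inv_pos.2 hs)
  rw [h5]
  exact hs1

theorem QV_strict {K : Set (Fin 3 → ℝ)} (hK : IsBody K) {u v : Fin 3 → ℝ}
    (h : LinearIndependent ℝ ![u, v]) : StrictAntiOn (QV (dpol K) u v) (Ioi 0) := by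
  intro s hs t ht hst
  have hs0 : 0 < s := hs
  have ht0 : 0 < t := ht
  obtain ⟨x, hx1, hx2⟩ := exists_ip h ((s + t) / 2) 1
  set D : Set (Fin 3 → ℝ) := {y | wd K y < 1} ∩
    ({y | s * |ip y v| < ip y u} ∩ {y | ip y u < t * |ip y v|}) with hD
  have hDo : IsOpen D :=
    (isOpen_lt hK.wd_continuous continuous_const).inter
      ((isOpen_lt (continuous_const.mul (ip_continuous v).abs) (ip_continuous u)).inter
        (isOpen_lt (ip_continuous u) (continuous_const.mul (ip_continuous v).abs)))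
  have hw := hK.wd_nonneg x
  have hcpos : 0 < (wd K x + 1)⁻¹ := inv_pos.2 (by linarith)
  have hDne : D.Nonempty := by
    refine ⟨(wd K x + 1)⁻¹ • x, ?_, ?_, ?_⟩
    · show wd K ((wd K x + 1)⁻¹ • x) < 1
      rw [hK.wd_smul _ hcpos]
      rw [inv_mul_lt_iff₀ (by linarith)]
      linarith
    · show s * |ip ((wd K x + 1)⁻¹ • x) v| < ip ((wd K x + 1)⁻¹ • x) u
      rw [ip_smul, ip_smul, hx1, hx2, mul_one, abs_of_pos hcpos]
      nlinarith
    · show ip ((wd K x + 1)⁻¹ • x) u < t * |ip ((wd K x + 1)⁻¹ • x) v|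
      rw [ip_smul, ip_smul, hx1, hx2, mul_one, abs_of_pos hcpos]
      nlinarith
  have hDpos : 0 < volume D := hDo.measure_pos volume hDne
  have hdisj : Disjoint (dpol K ∩ {x | t * |ip x v| < ip x u}) D := by
    rw [Set.disjoint_left]
    rintro y ⟨_, hy1⟩ ⟨_, _, hy2⟩
    have h1 : t * |ip y v| < ip y u := hy1
    have h2 : ip y u < t * |ip y v| := hy2
    linarith
  have hsub : (dpol K ∩ {x | t * |ip x v| < ip x u}) ∪ D ⊆
      dpol K ∩ {x | s * |ip x v| < ip x u} := by
    rintro y (⟨hy1, hy2⟩ | ⟨hy1, hy2, _⟩)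
    · refine ⟨hy1, ?_⟩
      have h1 : t * |ip y v| < ip y u := hy2
      show s * |ip y v| < ip y u
      have h2 : s * |ip y v| ≤ t * |ip y v| := mul_le_mul_of_nonneg_right hst.le (abs_nonneg _)
      linarith
    · refine ⟨?_, hy2⟩
      rw [hK.dpol_eq]
      have : wd K y < 1 := hy1
      exact this.le
  have h1 : volume (dpol K ∩ {x | t * |ip x v| < ip x u}) + volume D ≤
      volume (dpol K ∩ {x | s * |ip x v| < ip x u}) := by
    rw [← measure_union hdisj hDo.measurableSet]
    exact measure_mono hsub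
  have hfin : ∀ r : ℝ, volume (dpol K ∩ {x | r * |ip x v| < ip x u}) ≠ ⊤ := fun r =>
    (lt_of_le_of_lt (measure_mono inter_subset_left) hK.dpol_ne_top.lt_top).ne
  have h2 : volume (dpol K ∩ {x | t * |ip x v| < ip x u}) <
      volume (dpol K ∩ {x | s * |ip x v| < ip x u}) := by
    refine lt_of_lt_of_le ?_ h1
    exact ENNReal.lt_add_right (hfin t) hDpos.ne'
  show (volume (dpol K ∩ {x | t * |ip x v| < ip x u})).toReal <
    (volume (dpol K ∩ {x | s * |ip x v| < ip x u})).toReal
  exact (ENNReal.toReal_lt_toReal (hfin t) (hfin s)).2 h2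

theorem qvm (hD : DCVStmt) : QVMStmt := by
  intro K hK u v h
  refine ⟨QV_strict hK h, ?_⟩
  have hV := hK.dpol_pos
  obtain ⟨t₁, ht₁, h1⟩ := QV_small hD hK h ((volume (dpol K)).toReal / 4) (by linarith)
  have h0 := QV_zero hK h
  have hc := QV_cont hD hK h
  have h2 := intermediate_value_Icc' ht₁.le hc.continuousOn
  have h3 : (volume (dpol K)).toReal / 4 ∈ Icc (QV (dpol K) u v t₁) (QV (dpol K) u v 0) :=
    ⟨h1.le, by linarith⟩
  obtain ⟨t, ⟨ht0, _⟩, ht2⟩ := h2 h3
  refine ⟨t, ?_, ht2⟩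
  rcases lt_or_eq_of_le ht0 with h5 | h5
  · exact h5
  · exfalso
    rw [← h5] at ht2
    linarith

end Pool.Agent.Helper41.MK
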